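import Pool.Agent.R498.MP.ULin
import Pool.Agent.R498.MP.Gold

set_option autoImplicit false

/-!
# Sums of two twin primes: strings of consecutive primes `p` with `p ± 2`, `n - p`, `n - p ± 2` almost prime,
for every large even `n`

The proof applies the uniform Maynard-Tao theorem for strings of primes with almost prime linear forms
(`Pool.Agent.R498.MP.linU`) to the three forms `p + s₁`, `n - p`, `n - p + s₂`. A prime `p + s₁` belongs to the
other class modulo `3`, so that the members of the strings are consecutive among the primes of their class.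
-/

namespace Pool.Agent.Results.MP_c6d112_nt.PrimeStrings

open Filter Finset

/-- `n` has at most `r` prime factors, counted with multiplicity, all of them at least `w`. -/
def AlmostPrime (r : ℕ) (w : ℝ) (n : ℕ) : Prop :=
  n.primeFactorsList.length ≤ r ∧ ∀ q : ℕ, q.Prime → q ∣ n → w ≤ q

/-- The signs `s₁, s₂ = ± 2` and the class `c` modulo `q` fit to `n`: none of `c`, `c + s₁`, `n - c`,
`n - c + s₂` has a common factor with `q`. -/
def Fits (q n : ℕ) (s₁ s₂ : ℤ) (c : ℕ) : Prop :=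
  (s₁ = 2 ∨ s₁ = -2) ∧ (s₂ = 2 ∨ s₂ = -2) ∧
    IsCoprime ((c : ℤ) * ((c : ℤ) + s₁) * ((n : ℤ) - c) * ((n : ℤ) - c + s₂)) (q : ℤ)

/-- The primes `≡ c` modulo `3` in the interval `[x, x + C]` are exactly the numbers `x + s`, `s ∈ H`. -/
def Pattern (C c : ℕ) (H : Finset ℕ) (x : ℕ) : Prop :=
  ∀ y ≤ C, ((x + y).Prime ∧ x + y ≡ c [MOD 3]) ↔ y ∈ H

/-- `p` is a prime, and `p + s₁`, `n - p` and `n - p + s₂` are almost primes. -/
def Good (r : ℕ) (w : ℝ) (n : ℕ) (s₁ s₂ : ℤ) (p : ℕ) : Prop :=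
  p.Prime ∧ AlmostPrime r w ((p : ℤ) + s₁).toNat ∧ AlmostPrime r w (n - p) ∧
    AlmostPrime r w ((n : ℤ) - p + s₂).toNat

/-- the four linear forms -/
def F (n : ℤ) (s₁ s₂ : ℤ) (x : ℤ) : ℤ := x * (x + s₁) * (n - x) * (n - x + s₂)

theorem adm5 (n s₁ s₂ : ℤ) (p : ℕ) (hp : p.Prime) (h5 : 5 ≤ p) :
    ∃ k : ℕ, ¬ (p : ℤ) ∣ F n s₁ s₂ k := by
  by_contra hcon
  push Not at hcon
  have hpZ : Prime (p : ℤ) := Nat.prime_iff_prime_int.1 hp
  -- the linear factor divisible by `p`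
  have h1 : ∀ k : Fin 5, ∃ i : Fin 4, (p : ℤ) ∣ (![(k : ℤ), (k : ℤ) + s₁, n - k, n - k + s₂] : Fin 4 → ℤ) i := by
    intro k
    have h := hcon (k : ℕ)
    unfold F at h
    rcases hpZ.dvd_or_dvd h with h | h
    · rcases hpZ.dvd_or_dvd h with h | h
      · rcases hpZ.dvd_or_dvd h with h | h
        · exact ⟨0, by simpa using h⟩
        · exact ⟨1, by simpa using h⟩
      · exact ⟨2, by simpa using h⟩
    · exact ⟨3, by simpa using h⟩
  choose g hg using h1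
  obtain ⟨x, y, hxy, hgxy⟩ := Fintype.exists_ne_map_eq_of_card_lt g (by simp)
  have hx := hg x
  have hy := hg y
  rw [← hgxy] at hy
  have hd : (p : ℤ) ∣ (x : ℤ) - y := by
    generalize g x = i at hx hy
    fin_cases i
    · have := dvd_sub hx hy
      simpa using this
    · have := dvd_sub hx hy
      simpa using this
    · have := dvd_sub hy hx
      simpa using this
    · have := dvd_sub hy hx
      simpa using this
  have hx5 := x.2
  have hy5 := y.2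
  have hne : (x : ℕ) ≠ y := fun h => hxy (Fin.ext h)
  obtain ⟨t, ht⟩ := hd
  have hp5 : (5 : ℤ) ≤ p := by exact_mod_cast h5
  have h6 : |(x : ℤ) - y| < 5 := by
    rw [abs_lt]
    constructor <;> omega
  have h7 : (x : ℤ) - y ≠ 0 := by omega
  have ht0 : t ≠ 0 := by
    rintro rfl
    rw [mul_zero] at ht
    exact h7 ht
  have h8 : (5 : ℤ) ≤ |(x : ℤ) - y| := by
    rw [ht, abs_mul, abs_of_nonneg (by omega : (0 : ℤ) ≤ p)]
    have : 1 ≤ |t| := Int.one_le_abs ht0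
    nlinarith
  omega

theorem adm2 (n : ℕ) (hn : Even n) (s₁ s₂ : ℤ) (h1 : s₁ = 2 ∨ s₁ = -2) (h2 : s₂ = 2 ∨ s₂ = -2) :
    ¬ ((2 : ℕ) : ℤ) ∣ F n s₁ s₂ ((1 : ℕ) : ℤ) := by
  obtain ⟨k, rfl⟩ := hn
  have hpZ : Prime ((2 : ℕ) : ℤ) := Nat.prime_iff_prime_int.1 Nat.prime_two
  intro h
  unfold F at h
  rcases hpZ.dvd_or_dvd h with h | h
  · rcases hpZ.dvd_or_dvd h with h | h
    · rcases hpZ.dvd_or_dvd h with h | h
      · norm_num at h
      · push_cast at h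
        omega
    · push_cast at h
      omega
  · push_cast at h
    omega

theorem not_dvd_of_cop {q : ℕ} {z : ℤ} (h : IsCoprime z (q : ℤ)) {p : ℕ} (hp : p.Prime) (hpq : p ∣ q) :
    ¬ (p : ℤ) ∣ z := by
  intro h0
  have h1 : (p : ℤ) ∣ (q : ℤ) := Int.natCast_dvd_natCast.2 hpq
  have h2 : IsUnit (p : ℤ) := h.isUnit_of_dvd' h0 h1
  rw [Int.isUnit_iff] at h2
  have h3 := hp.one_lt
  omega

/-- **Every even number has fitting signs and classes**, for every squarefree modulus. -/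
theorem exists_fits (q : ℕ) (hq : q ≠ 0) (n : ℕ) (hn : Even n) :
    ∃ (s₁ s₂ : ℤ) (c : ℕ), Fits q n s₁ s₂ c := by
  classical
  -- the signs
  obtain ⟨s₁, s₂, c₃, h1, h2, h3⟩ : ∃ (s₁ s₂ : ℤ) (c₃ : ℕ), (s₁ = 2 ∨ s₁ = -2) ∧ (s₂ = 2 ∨ s₂ = -2) ∧
      ¬ ((3 : ℕ) : ℤ) ∣ F n s₁ s₂ c₃ := by
    have hp3 : Prime ((3 : ℕ) : ℤ) := Nat.prime_iff_prime_int.1 Nat.prime_three
    have key : ∀ (s₁ s₂ : ℤ) (c : ℕ), ¬ (3 : ℤ) ∣ (c : ℤ) → ¬ (3 : ℤ) ∣ (c : ℤ) + s₁ →
        ¬ (3 : ℤ) ∣ (n : ℤ) - c → ¬ (3 : ℤ) ∣ (n : ℤ) - c + s₂ →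
        ¬ ((3 : ℕ) : ℤ) ∣ F n s₁ s₂ c := by
      intro s₁ s₂ c a1 a2 a3 a4 h
      unfold F at h
      rcases hp3.dvd_or_dvd h with h | h
      · rcases hp3.dvd_or_dvd h with h | h
        · rcases hp3.dvd_or_dvd h with h | h
          · exact a1 (by simpa using h)
          · exact a2 (by simpa using h)
        · exact a3 (by simpa using h)
      · exact a4 (by simpa using h)
    have hmod : n % 3 = 0 ∨ n % 3 = 1 ∨ n % 3 = 2 := by omega
    rcases hmod with h | h | h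
    · exact ⟨2, -2, 2, Or.inl rfl, Or.inr rfl, key 2 (-2) 2 (by norm_num) (by norm_num)
        (by push_cast; omega) (by push_cast; omega)⟩
    · exact ⟨2, 2, 2, Or.inl rfl, Or.inl rfl, key 2 2 2 (by norm_num) (by norm_num)
        (by push_cast; omega) (by push_cast; omega)⟩
    · exact ⟨-2, -2, 1, Or.inr rfl, Or.inr rfl, key (-2) (-2) 1 (by norm_num) (by norm_num)
        (by push_cast; omega) (by push_cast; omega)⟩
  have hadm : ∀ p : ℕ, p.Prime → ∃ k : ℕ, ¬ (p : ℤ) ∣ F n s₁ s₂ k := by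
    intro p hp
    rcases Nat.lt_or_ge p 5 with h | h
    · have : p = 2 ∨ p = 3 ∨ p = 4 := by
        have := hp.two_le
        omega
      rcases this with rfl | rfl | rfl
      · exact ⟨1, adm2 n hn s₁ s₂ h1 h2⟩
      · exact ⟨c₃, h3⟩
      · exact absurd hp (by decide)
    · exact adm5 n s₁ s₂ p hp h
  choose! k hk using hadm
  have hpw : Set.Pairwise (q.primeFactors : Set ℕ) (Function.onFun Nat.Coprime (fun p => p)) := by
    intro a ha b hb hab
    have ha' : a.Prime := Nat.prime_of_mem_primeFactors ha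
    have hb' : b.Prime := Nat.prime_of_mem_primeFactors hb
    exact (Nat.coprime_primes ha' hb').2 hab
  obtain ⟨c, hc⟩ := Nat.chineseRemainderOfFinset k (fun p => p) q.primeFactors
    (fun p hp => (Nat.prime_of_mem_primeFactors hp).ne_zero) hpw
  refine ⟨s₁, s₂, c, h1, h2, ?_⟩
  rw [Int.isCoprime_iff_gcd_eq_one]
  by_contra hg
  obtain ⟨p, hp, hpd⟩ := Nat.exists_prime_and_dvd hg
  have hpq : p ∣ q := by
    have : (p : ℤ) ∣ (q : ℤ) := (Int.natCast_dvd_natCast.2 hpd).trans (Int.gcd_dvd_right ..)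
    exact_mod_cast this
  have hpF : (p : ℤ) ∣ F n s₁ s₂ c := by
    have := (Int.natCast_dvd_natCast.2 hpd).trans (Int.gcd_dvd_left
      (a := (c : ℤ) * ((c : ℤ) + s₁) * ((n : ℤ) - c) * ((n : ℤ) - c + s₂)) (b := (q : ℤ)))
    exact this
  have hmodp : c ≡ k p [MOD p] := hc p (Nat.mem_primeFactors.2 ⟨hp, hpq, hq⟩)
  apply hk p hp
  have h6 : ((c : ℕ) : ℤ) ≡ (k p : ℕ) [ZMOD p] := (Int.natCast_modEq_iff).2 hmodp
  have h7 : F n s₁ s₂ c ≡ F n s₁ s₂ (k p) [ZMOD p] := by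
    unfold F
    have e1 := h6.add_right s₁
    have e2 := (Int.ModEq.refl (n : ℤ) (n := (p : ℤ))).sub h6
    have e3 := e2.add_right s₂
    exact ((h6.mul e1).mul e2).mul e3
  have h8 := Int.modEq_zero_iff_dvd.2 hpF
  exact Int.modEq_zero_iff_dvd.1 (h7.symm.trans h8)

open Pool.Agent.R498.MP in
/-- uniform in `n` for every `N` -/
theorem strings (q : ℕ) (hq : Squarefree q) (h3 : 3 ∣ q) (m : ℕ) :
    ∃ (K B : ℕ) (δ : ℝ), 0 < δ ∧ ∀ A : ℕ, ∃ r : ℕ, ∀ S : Finset ℕ, K ≤ S.card →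
      (∀ s ∈ S, ∀ t ∈ S, s ≡ t [MOD 3]) → ∀ᶠ N : ℕ in atTop, ∀ n : ℕ, n ≤ N ^ A →
      Even n → 3 * N ≤ n → ∀ (s₁ s₂ : ℤ) (c : ℕ), Fits q n s₁ s₂ c →
      ∃ H ⊆ S, m ≤ H.card ∧ ∃ T : Finset ℕ, (N : ℝ) ≤ Real.log N ^ B * T.card ∧
        ∀ x ∈ T, N < x ∧ x + S.sup id ≤ 2 * N ∧ Pattern (S.sup id) c H x ∧
          ∀ s ∈ H, x + s ≡ c [MOD q] ∧ Good r ((N : ℝ) ^ δ) n s₁ s₂ (x + s) := by
  obtain ⟨K, B, δ, hδ, hmain⟩ := linU 3 q hq (m + 1)
  refine ⟨K, B, δ, hδ, fun A => ?_⟩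
  obtain ⟨r, hr⟩ := hmain (A + 2)
  refine ⟨r, fun S hS hS3 => ?_⟩
  filter_upwards [hr S hS, eventually_ge_atTop 3] with N hN hN3
  intro n hnA hn h3N s₁ s₂ c hfit
  obtain ⟨hs1, hs2, hcop⟩ := hfit
  have hprod : ∀ x : ℤ, x * ∏ i, ((![1, -1, -1] : Fin 3 → ℤ) i * x + (![s₁, n, n + s₂] : Fin 3 → ℤ) i) =
      F n s₁ s₂ x := by
    intro x
    simp only [Fin.prod_univ_three, Matrix.cons_val_zero, Matrix.cons_val_one, Matrix.cons_val_two,
      Matrix.head_cons, Matrix.tail_cons, F]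
    simp
    ring
  have hN1 : (1 : ℤ) ≤ (N : ℤ) ^ A := one_le_pow₀ (by exact_mod_cast (by omega : 1 ≤ N))
  have hNA : (N : ℤ) ^ (A + 2) = (N : ℤ) ^ A * (N : ℤ) ^ 2 := pow_add _ _ _
  have hN9 : (9 : ℤ) ≤ (N : ℤ) ^ 2 := by
    have : (3 : ℤ) ≤ N := by exact_mod_cast hN3
    nlinarith
  have hbig : (N : ℤ) ^ A + 2 ≤ (N : ℤ) ^ (A + 2) := by
    rw [hNA]
    nlinarith
  have hnA' : (n : ℤ) ≤ (N : ℤ) ^ A := by exact_mod_cast hnA
  obtain ⟨H, hH, hHm, T, hT, hmem⟩ := hN ![1, -1, -1] ![s₁, n, n + s₂]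
    (by
      intro i
      have a1 : (1 : ℤ) ≤ (N : ℤ) ^ (A + 2) := by linarith
      have a2 : (2 : ℤ) ≤ (N : ℤ) ^ (A + 2) := by linarith
      have hs1' : |s₁| ≤ 2 := by rcases hs1 with rfl | rfl <;> norm_num
      have hs2' : |s₂| ≤ 2 := by rcases hs2 with rfl | rfl <;> norm_num
      have hn0 : |(n : ℤ)| = n := Nat.abs_cast n
      fin_cases i
      · simp only [Fin.zero_eta, Matrix.cons_val_zero, abs_one]
        exact ⟨a1, hs1'.trans a2⟩
      · refine ⟨by simpa using a1, ?_⟩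
        show |(n : ℤ)| ≤ _
        rw [hn0]
        linarith
      · refine ⟨by simpa using a1, ?_⟩
        show |(n : ℤ) + s₂| ≤ _
        have := abs_add_le (n : ℤ) s₂
        rw [hn0] at this
        linarith)
    (by
      intro p hp
      rcases Nat.lt_or_ge p 5 with h | h
      · have : p = 2 ∨ p = 3 ∨ p = 4 := by
          have := hp.two_le
          omega
        rcases this with rfl | rfl | rfl
        · exact ⟨((1 : ℕ) : ℤ), by rw [hprod]; exact adm2 n hn s₁ s₂ hs1 hs2⟩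
        · refine ⟨(c : ℤ), ?_⟩
          rw [hprod]
          exact not_dvd_of_cop hcop Nat.prime_three h3
        · exact absurd hp (by decide)
      · obtain ⟨k, hk⟩ := adm5 n s₁ s₂ p hp h
        exact ⟨k, by rw [hprod]; exact hk⟩)
    c (by rw [hprod]; exact hcop)
  refine ⟨H, hH, by omega, T, hT, fun x hx => ?_⟩
  obtain ⟨g1, g2, g3, g4⟩ := hmem x hx
  have hHS : ∀ s ∈ S, s ≤ S.sup id := fun s hs => Finset.le_sup (f := id) hs
  have hmod3 : ∀ h ∈ H, x + h ≡ c [MOD 3] := fun h hh => (g3 h hh).2.1.of_dvd h3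
  refine ⟨g1, g2, ?_, ?_⟩
  · intro y hy
    constructor
    · rintro ⟨hpy, hcy⟩
      by_contra hyH
      refine g4 y hy hyH ?_ hpy
      intro h hh hhy i
      have hhs := hHS h hh
      fin_cases i
      · intro h0
        replace h0 : (1 : ℤ) * ((h : ℤ) - y) + s₁ = 0 := by simpa using h0
        obtain ⟨h₀, hh₀⟩ : H.Nonempty := Finset.card_pos.1 (by omega)
        have e1 := hmod3 h₀ hh₀
        have e2 := hS3 h₀ (hH hh₀) h hh
        unfold Nat.ModEq at e1 e2 hcy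
        rcases hs1 with rfl | rfl <;> omega
      · intro h0
        replace h0 : (-1 : ℤ) * ((h : ℤ) - y) + n = 0 := by simpa using h0
        omega
      · intro h0
        replace h0 : (-1 : ℤ) * ((h : ℤ) - y) + (n + s₂) = 0 := by simpa using h0
        rcases hs2 with rfl | rfl <;> omega
    · intro hyH
      exact ⟨(g3 y hyH).1, hmod3 y hyH⟩
  · intro s hs
    obtain ⟨k1, k2, k3⟩ := g3 s hs
    have hss := hHS s (hH hs)
    have hsub : s ≤ S.sup id := hss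
    refine ⟨k2, k1, ?_, ?_, ?_⟩
    · have h5 := k3 0
      have e : (![1, -1, -1] : Fin 3 → ℤ) 0 * ((x + s : ℕ) : ℤ) + (![s₁, n, n + s₂] : Fin 3 → ℤ) 0 =
          ((((x + s : ℕ) : ℤ) + s₁).toNat : ℤ) := by
        rw [Int.toNat_of_nonneg (by rcases hs1 with rfl | rfl <;> omega)]
        simp
      rw [e] at h5
      exact APZ_nat _ _ _ h5
    · have h5 := k3 1
      have e : (![1, -1, -1] : Fin 3 → ℤ) 1 * ((x + s : ℕ) : ℤ) + (![s₁, n, n + s₂] : Fin 3 → ℤ) 1 =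
          ((n - (x + s) : ℕ) : ℤ) := by
        rw [Nat.cast_sub (by omega)]
        simp
        ring
      rw [e] at h5
      exact APZ_nat _ _ _ h5
    · have h5 := k3 2
      have e : (![1, -1, -1] : Fin 3 → ℤ) 2 * ((x + s : ℕ) : ℤ) + (![s₁, n, n + s₂] : Fin 3 → ℤ) 2 =
          (((n : ℤ) - ((x + s : ℕ) : ℤ) + s₂).toNat : ℤ) := by
        rw [Int.toNat_of_nonneg (by rcases hs2 with rfl | rfl <;> omega)]
        simp
        ring
      rw [e] at h5
      exact APZ_nat _ _ _ h5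

open Pool.Agent.R498.MP in
/-- (1) For every modulus `q` and every even `n` there are signs `s₁`, `s₂` and a class `c` modulo `q` which fit to
`n`.

(2) Let `q` be a squarefree multiple of `3`. For every `m` there are `K`, `B` and `δ > 0` such that for every `A`
there is an `r` such that, for every finite set `S` of at least `K` nonnegative integers in one residue class
modulo `3`, the following holds for all large even `n`, all `N` with `n ^ (1 / A) ≤ N ≤ n / 3` and all `s₁`, `s₂`,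
`c` which fit to `n`. There are a subset `H` of `S` with at least `m` elements and at least `N / (log N) ^ B`
numbers `x` with `N < x ≤ x + max S ≤ 2 N` such that the primes `≡ c` modulo `3` in `[x, x + max S]` are exactly
the numbers `x + s`, `s ∈ H`, all these primes `p` are `≡ c` modulo `q`, and for each of them `p + s₁`, `n - p`
and `n - p + s₂` have at most `r` prime factors, all of them at least `N ^ δ`. -/
theorem result :
    (∀ q : ℕ, q ≠ 0 → ∀ n : ℕ, Even n → ∃ (s₁ s₂ : ℤ) (c : ℕ), Fits q n s₁ s₂ c) ∧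
    ∀ q : ℕ, Squarefree q → 3 ∣ q → ∀ m : ℕ,
    ∃ (K B : ℕ) (δ : ℝ), 0 < δ ∧ ∀ A : ℕ, ∃ r : ℕ, ∀ S : Finset ℕ, K ≤ S.card →
      (∀ s ∈ S, ∀ t ∈ S, s ≡ t [MOD 3]) → ∀ᶠ n : ℕ in atTop, ∀ N : ℕ, n ≤ N ^ A →
      Even n → 3 * N ≤ n → ∀ (s₁ s₂ : ℤ) (c : ℕ), Fits q n s₁ s₂ c →
      ∃ H ⊆ S, m ≤ H.card ∧ ∃ T : Finset ℕ, (N : ℝ) ≤ Real.log N ^ B * T.card ∧
        ∀ x ∈ T, N < x ∧ x + S.sup id ≤ 2 * N ∧ Pattern (S.sup id) c H x ∧
          ∀ s ∈ H, x + s ≡ c [MOD q] ∧ Good r ((N : ℝ) ^ δ) n s₁ s₂ (x + s) := by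
  refine ⟨exists_fits, fun q hq h3 m => ?_⟩
  obtain ⟨K, B, δ, hδ, hmain⟩ := strings q hq h3 m
  refine ⟨K, B, δ, hδ, fun A => ?_⟩
  obtain ⟨r, hr⟩ := hmain A
  refine ⟨r, fun S hS hS3 => ?_⟩
  exact swap_ev A (fun N n => Even n → 3 * N ≤ n → ∀ (s₁ s₂ : ℤ) (c : ℕ), Fits q n s₁ s₂ c →
      ∃ H ⊆ S, m ≤ H.card ∧ ∃ T : Finset ℕ, (N : ℝ) ≤ Real.log N ^ B * T.card ∧
        ∀ x ∈ T, N < x ∧ x + S.sup id ≤ 2 * N ∧ Pattern (S.sup id) c H x ∧
          ∀ s ∈ H, x + s ≡ c [MOD q] ∧ Good r ((N : ℝ) ^ δ) n s₁ s₂ (x + s)) (hr S hS hS3)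

end Pool.Agent.Results.MP_c6d112_nt.PrimeStrings
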