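import Pool.Agent.R518.C.Lin4

set_option autoImplicit false

/-!
# Sums `n = p + q` with `p` prime and rough `mate p`, `q`, `mate q`: exact number and law of the successors
-/

namespace Pool.Agent.Results.MP_c6d112_nt.PrimeSummands

open Finset Filter

/-- For `m` prime to `6`: the other member of the only possible twin pair which contains `m`, that is the one of
`m - 2` and `m + 2` which is not divisible by `3`. -/
def mate (m : ℤ) : ℤ := if m % 6 = 5 then m + 2 else m - 2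

/-- `l` divides one of the four numbers `p`, `mate p`, `q = n - p` and `mate q`, where `p = 6 x + c`. -/
def Divides (n c l x : ℕ) : Prop :=
  (l : ℤ) ∣ 6 * (x : ℤ) + c ∨ (l : ℤ) ∣ mate (6 * (x : ℤ) + c) ∨
    (l : ℤ) ∣ (n : ℤ) - (6 * (x : ℤ) + c) ∨ (l : ℤ) ∣ mate ((n : ℤ) - (6 * (x : ℤ) + c))

/-- None of the four numbers has a prime factor `≤ y`. -/
def Rough (n c y x : ℕ) : Prop := ∀ l : ℕ, l.Prime → l ≤ y → ¬ Divides n c l x

open Classical in
/-- The density of these `x`: the product of `1 - ν(l) / l` over the primes `l ≤ y`, where `ν(l)` is the number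
of the residues `x` modulo `l` for which `l` divides one of the four numbers. -/
noncomputable def V (n c y : ℕ) : ℝ := ∏ l ∈ (Finset.range (y + 1)).filter Nat.Prime,
    (1 - (((Finset.range l).filter (fun x : ℕ => Divides n c l x)).card : ℝ) / l)

open Classical in
/-- The product of `(1 - ν(l) / l) / (1 - 1 / l)` over the primes `l ≤ y`. -/
noncomputable def W (n c y : ℕ) : ℝ := ∏ l ∈ (Finset.range (y + 1)).filter Nat.Prime,
    (1 - (((Finset.range l).filter (fun x : ℕ => Divides n c l x)).card : ℝ) / l) / (1 - 1 / (l : ℝ))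

open Classical in
/-- The `x` in `(u, u + Y]` with `p = 6 x + c` prime and `Rough n c y x`. -/
noncomputable def P (n c y u Y : ℕ) : Finset ℕ :=
  (Ioc u (u + Y)).filter (fun x => (6 * x + c).Prime ∧ Rough n c y x)

open Classical in
/-- The number of the integers `x'` in `(x, x + T]` with `Rough n c y x'`. -/
noncomputable def Next (n c y T x : ℕ) : ℕ := ((Ioc x (x + T)).filter (fun x' => Rough n c y x')).card

/-- The possible classes modulo `6` of a twin prime `p > 3` in `n = p + q`: `c` and `n - c` are prime to `6`. -/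
def Class (n c : ℕ) : Prop := (c = 1 ∨ c = 5) ∧ (((n : ℤ) - c) % 6 = 1 ∨ ((n : ℤ) - c) % 6 = 5)

/-- **Prime summands.** For all `θ, δ > 0`, `x0` and `ε > 0` there is `r0` such that for `r ≥ r0` the following
holds for EVERY large even `n`, with `y = n ^ (1 / r)`: there is a class `c` with `Class n c`, and for every such `c`,
all `X ≥ n ^ θ` and all intervals `(u, u + Y]` in `(0, X]` with `Y ≥ δ X`: (1) the number of the `x` in the interval
for which `p = 6 x + c` is a prime `> y` and none of `mate p`, `q = n - p`, `mate q` has a prime factor `≤ y` is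
`(1 + O(ε)) Y W / log X`; (2) if `T V ≤ x0`, then the number of the integers `x'` in `(x, x + T]` for which none of the
four numbers has a prime factor `≤ y`, `x` running over these arguments, has the Poisson law with mean `T V`, up to
`ε`. -/
theorem result (θ δ : ℝ) (hθ : 0 < θ) (hδ : 0 < δ) (hδ1 : δ ≤ 1) (x0 ε : ℝ) (hε : 0 < ε) (hε1 : ε ≤ 1) :
    ∃ r0 : ℕ, 2 ≤ r0 ∧ ∀ r : ℕ, r0 ≤ r → ∀ᶠ n : ℕ in atTop, Even n → (∃ c : ℕ, Class n c) ∧
      ∀ c : ℕ, Class n c → 0 < W n c ⌊(n : ℝ) ^ (1 / (r : ℝ))⌋₊ ∧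
      ∀ X : ℕ, (n : ℝ) ^ θ ≤ X → ∀ u Y : ℕ, δ * X ≤ Y → u + Y ≤ X →
        |((P n c ⌊(n : ℝ) ^ (1 / (r : ℝ))⌋₊ u Y).card : ℝ) * Real.log X -
          Y * W n c ⌊(n : ℝ) ^ (1 / (r : ℝ))⌋₊| ≤ ε * (Y * W n c ⌊(n : ℝ) ^ (1 / (r : ℝ))⌋₊) ∧
        ∀ T : ℕ, T * V n c ⌊(n : ℝ) ^ (1 / (r : ℝ))⌋₊ ≤ x0 → ∀ J : Finset ℕ,
          |(((P n c ⌊(n : ℝ) ^ (1 / (r : ℝ))⌋₊ u Y).filter
              (fun x => Next n c ⌊(n : ℝ) ^ (1 / (r : ℝ))⌋₊ T x ∈ J)).card : ℝ) -
            (P n c ⌊(n : ℝ) ^ (1 / (r : ℝ))⌋₊ u Y).card *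
              ∑ i ∈ J, Real.exp (-(T * V n c ⌊(n : ℝ) ^ (1 / (r : ℝ))⌋₊)) *
                (T * V n c ⌊(n : ℝ) ^ (1 / (r : ℝ))⌋₊) ^ i / i.factorial| ≤
            ε * (P n c ⌊(n : ℝ) ^ (1 / (r : ℝ))⌋₊ u Y).card := by
  obtain ⟨r0, hr0, h0⟩ := Pool.Agent.R518.G.primeG 6 4 1 2
    (by rw [show (6 : ℕ) = 2 * 3 by norm_num, Nat.squarefree_mul (by norm_num)]
        exact ⟨Nat.prime_two.prime.squarefree, Nat.prime_three.prime.squarefree⟩)
    (1 / 2) θ δ (by norm_num) hθ hδ hδ1 x0 ε hε hε1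
  have hbig : ∀ᶠ n : ℕ in atTop, (5 : ℝ) ≤ (n : ℝ) ^ (θ / 4) :=
    ((tendsto_rpow_atTop (by positivity : 0 < θ / 4)).comp tendsto_natCast_atTop_atTop).eventually_ge_atTop 5
  refine ⟨r0, hr0, fun r hr => ?_⟩
  filter_upwards [h0 r hr, eventually_ge_atTop 100, hbig] with n hn hn2 hn5
  intro heven
  refine ⟨?_, fun c hc => ?_⟩
  · obtain ⟨s, hs⟩ := heven
    unfold Class
    by_cases h6 : n % 6 = 4
    · exact ⟨5, Or.inr rfl, by push_cast; omega⟩
    · exact ⟨1, Or.inl rfl, by push_cast; omega⟩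
  · obtain ⟨e, f, h1, h2, h3, h4⟩ := Pool.Agent.R518.G.mates n c hc.1 hc.2
    have hU : 6 * ((n : ℝ) ^ (1 / 2 : ℝ)) < (n : ℝ) - 4 := by
      have hnr : (100 : ℝ) ≤ n := by exact_mod_cast hn2
      rw [← Real.sqrt_eq_rpow]
      have hs := Real.sq_sqrt (by linarith : (0 : ℝ) ≤ n)
      have hs1 : (10 : ℝ) ≤ √(n : ℝ) := by
        rw [show (10 : ℝ) = √100 by rw [show (100 : ℝ) = 10 ^ 2 by norm_num, Real.sqrt_sq (by norm_num)]]
        exact Real.sqrt_le_sqrt hnr
      nlinarith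
    have hrep : Pool.Agent.R518.G.Rep (Pool.Agent.R518.G.l6 (Pool.Agent.R518.G.bb c e n f)) (Divides n c) :=
      (Pool.Agent.R518.G.bb_rep c e n f).congr (fun l x => by
        unfold Divides
        have e3 : mate (6 * (x : ℤ) + c) = 6 * (x : ℤ) + c + 2 * e := h3 x
        have e4 : mate ((n : ℤ) - (6 * (x : ℤ) + c)) = (n : ℤ) - (6 * (x : ℤ) + c) + 2 * f := h4 x
        rw [e3, e4])
    have hus := Pool.Agent.R518.G.bb_us n c e f hn2 (by rcases hc.1 with h | h <;> omega) h1 h2 _ hU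
    exact hn _ (Divides n c) c hus hrep
      (by rcases hc.1 with h | h <;> subst h <;> decide)
      (fun p x hp hp6 hd => by
        obtain ⟨i, hi⟩ := (hrep p x).2 hd
        have hco : IsCoprime (6 : ℤ) (Pool.Agent.R518.G.bb c e n f i) := Pool.Agent.R518.G.cop6 (by
          fin_cases i
          · show (c : ℤ) % 6 = 1 ∨ (c : ℤ) % 6 = 5
            rcases hc.1 with h | h <;> omega
          · show ((c : ℤ) + 2 * e) % 6 = 1 ∨ ((c : ℤ) + 2 * e) % 6 = 5
            omega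
          · show ((c : ℤ) - n) % 6 = 1 ∨ ((c : ℤ) - n) % 6 = 5
            omega
          · show ((c : ℤ) - n - 2 * f) % 6 = 1 ∨ ((c : ℤ) - n - 2 * f) % 6 = 5
            omega)
        have e1 : (Pool.Agent.R518.G.l6 (Pool.Agent.R518.G.bb c e n f) i).eval (x : ℤ) =
            6 * x + Pool.Agent.R518.G.bb c e n f i := Pool.Agent.Y879.GL.lf_eval _ _ _
        rw [e1] at hi
        have h6 : (p : ℤ) ∣ (6 : ℤ) := by exact_mod_cast hp6
        have h7 : (p : ℤ) ∣ Pool.Agent.R518.G.bb c e n f i :=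
          (dvd_add_right (h6.mul_right (x : ℤ))).1 hi
        have h8 := hco.isUnit_of_dvd' h6 h7
        rw [Int.isUnit_iff] at h8
        have := hp.two_le
        omega)
      ⟨0, fun x => Pool.Agent.Y879.GL.lf_eval _ _ _⟩
      (by
        refine le_trans ?_ hn5
        rcases hc.1 with h | h <;> subst h <;> norm_num) _ rfl

end Pool.Agent.Results.MP_c6d112_nt.PrimeSummands
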