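import Pool.Agent.R518.C.Lin4

set_option autoImplicit false

/-!
# Sums of two twin primes: regular points of arbitrary sets of representations
-/

namespace Pool.Agent.Results.MP_c6d112_nt.RegularPoints

open Finset Filter

/-- For `m` prime to `6`: the other member of the only possible twin pair which contains `m`, that is the one of
`m - 2` and `m + 2` which is not divisible by `3`. -/
def mate (m : ℤ) : ℤ := if m % 6 = 5 then m + 2 else m - 2

/-- `l` divides one of the four numbers `p`, `mate p`, `q = n - p` and `mate q`, where `p = 6 x + c`. -/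
def Divides (n c l x : ℕ) : Prop :=
  (l : ℤ) ∣ 6 * (x : ℤ) + c ∨ (l : ℤ) ∣ mate (6 * (x : ℤ) + c) ∨
    (l : ℤ) ∣ (n : ℤ) - (6 * (x : ℤ) + c) ∨ (l : ℤ) ∣ mate ((n : ℤ) - (6 * (x : ℤ) + c))

/-- None of the four numbers has a prime factor `≤ y`. -/
def Rough (n c y x : ℕ) : Prop := ∀ l : ℕ, l.Prime → l ≤ y → ¬ Divides n c l x

open Classical in
/-- The density of these `x`: the product of `1 - ν(l) / l` over the primes `l ≤ y`, where `ν(l)` is the number
of the residues `x` modulo `l` for which `l` divides one of the four numbers. -/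
noncomputable def V (n c y : ℕ) : ℝ := ∏ l ∈ (Finset.range (y + 1)).filter Nat.Prime,
    (1 - (((Finset.range l).filter (fun x : ℕ => Divides n c l x)).card : ℝ) / l)

open Classical in
/-- The number of elements of `S` in `(a, b]`. -/
noncomputable def count (S : Set ℕ) (a b : ℕ) : ℕ := ((Finset.Ioc a b).filter (fun m => m ∈ S)).card

/-- All intervals `(x - s, x + t]` with `s, t ≤ Y` of length at least `L / κ` contain between
`κ (s + t) / L` and `(s + t) / (κ L)` elements of `S`. -/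
def RightOrder (S : Set ℕ) (L κ : ℝ) (Y x : ℕ) : Prop :=
  ∀ s t : ℕ, s ≤ Y → t ≤ Y → L ≤ κ * (s + t) →
    κ * (s + t) / L ≤ count S (x - s) (x + t) ∧ (count S (x - s) (x + t) : ℝ) ≤ (s + t) / (κ * L)

/-- Up to `δ`, `S` has a constant density on both sides of `x` up to the distance `2 ^ i`. -/
def ConstantDensity (S : Set ℕ) (L κ δ : ℝ) (x i : ℕ) : Prop :=
  ∃ lam : ℝ, κ ≤ lam ∧ lam ≤ 1 / κ ∧ ∀ s t : ℕ, s ≤ 2 ^ i → t ≤ 2 ^ i →
    |(count S (x - s) (x + t) : ℝ) - lam * (s + t) / L| ≤ δ * 2 ^ i / L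

open Classical in
/-- The number of the scales `L ≤ 2 ^ i ≤ Y` without this property. -/
noncomputable def badScales (S : Set ℕ) (L κ δ : ℝ) (Y x : ℕ) : ℕ :=
  ((Finset.range (Nat.log 2 Y + 1)).filter (fun i => L ≤ (2 : ℝ) ^ i ∧ ¬ ConstantDensity S L κ δ x i)).card

/-- The elements of `S` that are not regular points of `S`. -/
def Irregular (S : Set ℕ) (L κ δ : ℝ) (M Y : ℕ) : Set ℕ :=
  {x | x ∈ S ∧ ¬ (RightOrder S L κ Y x ∧ badScales S L κ δ Y x ≤ M)}

/-- The possible classes modulo `6` of a twin prime `p > 3` in `n = p + q`: `c` and `n - c` are prime to `6`. -/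
def Class (n c : ℕ) : Prop := (c = 1 ∨ c = 5) ∧ (((n : ℤ) - c) % 6 = 1 ∨ ((n : ℤ) - c) % 6 = 5)

/-- **Regular points.** Let `θ > 0` be given and `r ≥ r0(θ)`. For `ε > 0` there is `κ > 0`, and for `δ > 0` there
is `M`, such that for EVERY large even `n`, all classes `c` with `Class n c`, all `n ^ θ ≤ Y ≤ n`, `u ≥ Y`, and EVERY
set `S` of integers `x` such that none of `p = 6 x + c`, `mate p`, `q = n - p`, `mate q` has a prime factor
`≤ n ^ (1 / r)`, for instance the set of all `x` for which `p` and `q` are twin primes and the four numbers are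
`> n ^ (1 / r)`: all but at most `ε Y V` of the elements of `S` in `(u, u + Y]` are regular points of `S`: all
intervals of length between `1 / (κ V)` and `Y` around them contain the right order of elements of `S`, and `S` has a
constant density up to `δ` around them at all but `M` dyadic scales. -/
theorem result (θ : ℝ) (hθ : 0 < θ) :
    ∃ r0 : ℕ, 2 ≤ r0 ∧ ∀ r : ℕ, r0 ≤ r → ∀ ε : ℝ, 0 < ε → ∃ κ : ℝ, 0 < κ ∧
      ∀ δ : ℝ, 0 < δ → ∃ M : ℕ, ∀ᶠ n : ℕ in atTop, Even n → (∃ c : ℕ, Class n c) ∧ ∀ c : ℕ, Class n c →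
      ∀ u Y : ℕ, (n : ℝ) ^ θ ≤ Y → Y ≤ n → Y ≤ u →
      ∀ S : Set ℕ, (∀ x ∈ S, Rough n c ⌊(n : ℝ) ^ (1 / (r : ℝ))⌋₊ x) →
        (count (Irregular S (1 / V n c ⌊(n : ℝ) ^ (1 / (r : ℝ))⌋₊) κ δ M Y) u (u + Y) : ℝ) ≤
          ε * (Y * V n c ⌊(n : ℝ) ^ (1 / (r : ℝ))⌋₊) := by
  obtain ⟨r0, hr0, h0⟩ := Pool.Agent.R518.G.regG 4 1 2 0 (1 / 2) θ (by norm_num) hθ
  refine ⟨r0, hr0, fun r hr ε hε => ?_⟩
  obtain ⟨κ, hκ, h1⟩ := h0 r hr (2 ^ 6) ε (by norm_num) hε
  refine ⟨κ, hκ, fun δ hδ => ?_⟩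
  obtain ⟨M, h2⟩ := h1 δ hδ
  refine ⟨M, ?_⟩
  filter_upwards [h2, eventually_ge_atTop 100] with n hn hn2
  intro heven
  refine ⟨?_, fun c hc u Y hY hYX hYu S hS => ?_⟩
  · obtain ⟨s, hs⟩ := heven
    unfold Class
    by_cases h6 : n % 6 = 4
    · exact ⟨5, Or.inr rfl, by push_cast; omega⟩
    · exact ⟨1, Or.inl rfl, by push_cast; omega⟩
  · obtain ⟨e, f, h1, h2, h3, h4⟩ := Pool.Agent.R518.G.mates n c hc.1 hc.2
    have hU : 6 * ((n : ℝ) ^ (1 / 2 : ℝ)) < (n : ℝ) - 4 := by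
      have hnr : (100 : ℝ) ≤ n := by exact_mod_cast hn2
      rw [← Real.sqrt_eq_rpow]
      have hs := Real.sq_sqrt (by linarith : (0 : ℝ) ≤ n)
      have hs1 : (10 : ℝ) ≤ √(n : ℝ) := by
        rw [show (10 : ℝ) = √100 by rw [show (100 : ℝ) = 10 ^ 2 by norm_num, Real.sqrt_sq (by norm_num)]]
        exact Real.sqrt_le_sqrt hnr
      nlinarith
    have hrep : Pool.Agent.R518.G.Rep (Pool.Agent.R518.G.l6 (Pool.Agent.R518.G.bb c e n f)) (Divides n c) :=
      (Pool.Agent.R518.G.bb_rep c e n f).congr (fun l x => by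
        unfold Divides
        have e3 : mate (6 * (x : ℤ) + c) = 6 * (x : ℤ) + c + 2 * e := h3 x
        have e4 : mate ((n : ℤ) - (6 * (x : ℤ) + c)) = (n : ℤ) - (6 * (x : ℤ) + c) + 2 * f := h4 x
        rw [e3, e4])
    have hus := Pool.Agent.R518.G.bb_us n c e f hn2 (by rcases hc.1 with h | h <;> omega) h1 h2 _ hU
    exact hn _ (Divides n c) (Pool.Agent.R518.G.tr0 hus) hrep ∅ le_rfl
      (fun i j t ht htU _ => hus.tr i j t ht htU) _ rfl
      (Pool.Agent.R518.G.De_le_a 6 c (by norm_num) (fun p m _ hpm => by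
        left
        exact_mod_cast hpm) _) u Y hY hYX hYu S hS

end Pool.Agent.Results.MP_c6d112_nt.RegularPoints
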