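import Pool.Agent.R526.UT.Sums

set_option autoImplicit false

/-!
# Every large even number is a sum of two twin primes, for primes moved by at most `p^(1-κ)`

Author: helper526.

There is an absolute constant `0 < κ < 1` (from Hoheisel's theorem on primes in short intervals) with the following
property. Every large prime `p` stays where it is with probability `1 - δ`, and with probability `δ` it is moved to
`p + 2 i` with a uniformly random `1 ≤ i ≤ W(p)`, independently of the others; here `0 < δ ≤ 1` is fixed, and `W` is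
any nondecreasing function with `W(p) ≥ p^(1 - κ)`, `2 W(p) ≤ p` and `W(2 n) ≤ D W(n)`; for instance
`W(p) = ⌈p^(1 - κ)⌉`. Let `𝒮` be the resulting random set. Almost surely:

(1) every large even number `N` is a sum `a + b` of two twin primes of `𝒮`, that is `a, a + 2, b, b + 2 ∈ 𝒮`;
moreover one can take `a ≤ (log N)^10`;

(2) more generally, for ALL finite sets `H₁ ≠ ∅`, `H₂` of even numbers every large even number `N` is a sum `a + b`
with `a + h ∈ 𝒮` for `h ∈ H₁` and `b + h ∈ 𝒮` for `h ∈ H₂`, and `a ≤ (log N)^(2 (|H₁| + |H₂|) + 2)`.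

So Dubner's conjecture, with the most general form of a binary Goldbach theorem in which the summands are members of
given constellations, is true (for large `N`) after an arbitrarily rare random perturbation of the primes by a power
of `p` smaller than `p`: whatever may be wrong with it cannot be seen in the distribution of the primes in intervals
longer than `p^(1 - κ)`.

Proof. Partition the primes into `k` classes by their index mod `k` (`k = |H₁| + |H₂|`), each used for one of the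
`k` conditions. By Hoheisel's theorem each class hits a given odd `m` with probability `≫ 1/log m`; for
`G^k` disjoint configurations, `G ≍ (log N)²`, one fixes the classes one after the other: at least `G^(k-j)`
configurations survive `j` conditions, up to a probability `≪ G^k exp(-3 log N)`. Borel-Cantelli.
-/

open MeasureTheory ProbabilityTheory Filter

namespace Pool.Agent.Results.MP_c6d112_nt.TwinSumsOfMovedPrimes

/-- For all large primes `p`: `i p = 0` with probability `1 - δ`, and `i p = k` with probability `δ / W p` for each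
`1 ≤ k ≤ W p`; the random variables `i p` are independent. -/
def Moves (δ : ℝ) (W : ℕ → ℕ) (Ω : Type) [MeasurableSpace Ω] (μ : Measure Ω) (i : ℕ → Ω → ℕ) : Prop :=
  (∀ p, Measurable (i p)) ∧ iIndepFun i μ ∧ ∃ p₀ : ℕ, ∀ p : ℕ, p.Prime → p₀ ≤ p →
    μ.real {w | i p w = 0} = 1 - δ ∧ ∀ k : ℕ, 1 ≤ k → k ≤ W p → μ.real {w | i p w = k} = δ / W p

/-- the set `𝒮` of all `p + 2 * i p`, `p` prime -/
def S {Ω : Type} (i : ℕ → Ω → ℕ) (w : Ω) : Set ℕ := {m : ℕ | ∃ p : ℕ, p.Prime ∧ p + 2 * i p w = m}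

/-- There is `0 < κ < 1` such that, if `W` is nondecreasing and `W n ≥ n^(1 - κ)`, `2 W n ≤ n`, `W (2 n) ≤ D W n`
for large `n`, and `0 < δ ≤ 1`, almost surely: (1) every large even `N` is `a + b` with `a, a + 2, b, b + 2 ∈ 𝒮`
and `a ≤ (log N)^10`; (2) for all finite sets `H₁ ≠ ∅`, `H₂` of even numbers every large even `N` is `a + b` with
`a + H₁ ⊆ 𝒮`, `b + H₂ ⊆ 𝒮` and `a ≤ (log N)^(2 (|H₁| + |H₂|) + 2)`. -/
theorem result : ∃ κ : ℝ, 0 < κ ∧ κ < 1 ∧ ∀ (D δ : ℝ), 1 ≤ D → 0 < δ → δ ≤ 1 → ∀ (W : ℕ → ℕ), Monotone W →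
    (∀ᶠ n : ℕ in atTop, (n : ℝ) ^ (1 - κ) ≤ W n ∧ 2 * W n ≤ n ∧ (W (2 * n) : ℝ) ≤ D * W n) →
    ∀ (Ω : Type) [MeasurableSpace Ω] (μ : Measure Ω) [IsProbabilityMeasure μ] (i : ℕ → Ω → ℕ),
      Moves δ W Ω μ i → ∀ᵐ w ∂μ,
        (∀ᶠ N : ℕ in atTop, Even N → ∃ a b : ℕ, a + b = N ∧
          a ∈ S i w ∧ a + 2 ∈ S i w ∧ b ∈ S i w ∧ b + 2 ∈ S i w ∧ (a : ℝ) ≤ (Real.log N) ^ 10) ∧
        (∀ H₁ H₂ : Finset ℕ, (∀ h ∈ H₁, Even h) → (∀ h ∈ H₂, Even h) → H₁.Nonempty →
          ∀ᶠ N : ℕ in atTop, Even N → ∃ a b : ℕ, a + b = N ∧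
            (∀ h ∈ H₁, a + h ∈ S i w) ∧ (∀ h ∈ H₂, b + h ∈ S i w) ∧
            (a : ℝ) ≤ (Real.log N) ^ (2 * (H₁.card + H₂.card) + 2)) := by
  obtain ⟨κ, hκ0, hκ1, hU⟩ := Pool.Agent.R526.UT.sums
  refine ⟨κ, hκ0, hκ1, ?_⟩
  intro D δ hD hδ0 hδ1 W hmono hW Ω _ μ _ i hi
  obtain ⟨h1, h2, p₀, h3⟩ := hi
  have hG : Pool.Agent.R526.UT.Grow κ D W :=
    ⟨hmono, hW.mono fun n h => h.1, hW.mono fun n h => h.2.1, hW.mono fun n h => h.2.2⟩
  filter_upwards [hU D δ hD hδ0 hδ1 W hG Ω μ i h1 h2 p₀ fun p hp hp0 k hk1 hk2 =>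
    (h3 p hp hp0).2 k hk1 hk2] with w hw
  refine ⟨?_, ?_⟩
  · have h4 := hw {0, 2} {0, 2} (by decide) (by decide) (by decide)
    filter_upwards [h4] with N hN heven
    obtain ⟨a, b, hab, ha, hA, hB⟩ := hN heven
    refine ⟨a, b, hab, ?_, hA 2 (by decide), ?_, hB 2 (by decide), ?_⟩
    · exact hA 0 (by decide)
    · exact hB 0 (by decide)
    · have h5 : 2 * (({0, 2} : Finset ℕ).card + ({0, 2} : Finset ℕ).card) + 2 = 10 := by decide
      rwa [h5] at ha
  · intro H₁ H₂ e1 e2 hne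
    filter_upwards [hw H₁ H₂ e1 e2 hne] with N hN heven
    obtain ⟨a, b, hab, ha, hA, hB⟩ := hN heven
    exact ⟨a, b, hab, hA, hB, ha⟩

end Pool.Agent.Results.MP_c6d112_nt.TwinSumsOfMovedPrimes
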